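import Pool.Agent.Helper31.AC.DecPreds
import Pool.Agent.Helper33.AC.Semi

set_option autoImplicit false

namespace Pool.Agent.Helper7.AC

open Nat.Partrec (Code)
open Denumerable Encodable

/-- decode with default. -/
def dL (x : ℕ) : List Bool := ((decode x : Option (List Bool))).getD []
def dS (x : ℕ) : State := ((decode x : Option State)).getD ([], [], [])

theorem dL_encode (σ : List Bool) : dL (encode σ) = σ := by simp [dL]
theorem dS_encode (x : State) : dS (encode x) = x := by simp [dS]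

theorem dL_prim : Primrec dL := Primrec.option_getD.comp Primrec.decode (Primrec.const [])
theorem dS_prim : Primrec dS := Primrec.option_getD.comp Primrec.decode (Primrec.const ([], [], []))

/-- encode a state. -/
def encS (x : State) : ℕ := encode x
theorem encS_prim : Primrec encS := Primrec.encode
theorem dS_encS (x : State) : dS (encS x) = x := dS_encode x

/-- components of a witness of a splitting: `t = ⟨n, ⟨m₀, ⟨m₁, ⟨τ₀, τ₁⟩⟩⟩⟩`. -/
def wn (t : ℕ) : ℕ := (Nat.unpair t).1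
def wm0 (t : ℕ) : ℕ := (Nat.unpair (Nat.unpair t).2).1
def wm1 (t : ℕ) : ℕ := (Nat.unpair (Nat.unpair (Nat.unpair t).2).2).1
def wt0 (t : ℕ) : List Bool := dL (Nat.unpair (Nat.unpair (Nat.unpair (Nat.unpair t).2).2).2).1
def wt1 (t : ℕ) : List Bool := dL (Nat.unpair (Nat.unpair (Nat.unpair (Nat.unpair t).2).2).2).2

theorem u1 {α : Type*} [Primcodable α] {f : α → ℕ} (h : Primrec f) :
    Primrec fun a => (Nat.unpair (f a)).1 := Primrec.fst.comp (Primrec.unpair.comp h)
theorem u2 {α : Type*} [Primcodable α] {f : α → ℕ} (h : Primrec f) :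
    Primrec fun a => (Nat.unpair (f a)).2 := Primrec.snd.comp (Primrec.unpair.comp h)

theorem wn_prim : Primrec wn := u1 Primrec.id
theorem wm0_prim : Primrec wm0 := u1 (u2 Primrec.id)
theorem wm1_prim : Primrec wm1 := u1 (u2 (u2 Primrec.id))
theorem wt0_prim : Primrec wt0 := dL_prim.comp (u1 (u2 (u2 (u2 Primrec.id))))
theorem wt1_prim : Primrec wt1 := dL_prim.comp (u2 (u2 (u2 (u2 Primrec.id))))

theorem exists_Q : ∃ Q : ℕ → ℕ → Bool, (Primrec₂ Q) ∧
    ∀ z t, Q z t = true ↔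
      Free (dL (Nat.unpair z).1) (wt0 t) (Nat.unpair z).2 ∧
      Free (dL (Nat.unpair z).1) (wt1 t) (Nat.unpair z).2 ∧
      V (ofNat Code (Nat.unpair z).2) (wt0 t) (wn t) (wm0 t) ∧
      V (ofNat Code (Nat.unpair z).2) (wt1 t) (wn t) (wm1 t) ∧ wm0 t ≠ wm1 t := by
  obtain ⟨F, hF, hF'⟩ := freeDec
  obtain ⟨G, hG, hG'⟩ := vDec
  refine ⟨fun z t => F (dL (Nat.unpair z).1) (wt0 t) (Nat.unpair z).2 &&
    (F (dL (Nat.unpair z).1) (wt1 t) (Nat.unpair z).2 &&
    (G (Nat.unpair z).2 (wt0 t) (wn t) (wm0 t) &&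
    (G (Nat.unpair z).2 (wt1 t) (wn t) (wm1 t) && !(wm0 t == wm1 t)))), ?_, ?_⟩
  · have hz1 : Primrec fun p : ℕ × ℕ => dL (Nat.unpair p.1).1 := dL_prim.comp (u1 Primrec.fst)
    have hz2 : Primrec fun p : ℕ × ℕ => (Nat.unpair p.1).2 := u2 Primrec.fst
    have h0 : Primrec fun p : ℕ × ℕ => wt0 p.2 := wt0_prim.comp Primrec.snd
    have h1 : Primrec fun p : ℕ × ℕ => wt1 p.2 := wt1_prim.comp Primrec.snd
    have hn : Primrec fun p : ℕ × ℕ => wn p.2 := wn_prim.comp Primrec.snd
    have hm0 : Primrec fun p : ℕ × ℕ => wm0 p.2 := wm0_prim.comp Primrec.snd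
    have hm1 : Primrec fun p : ℕ × ℕ => wm1 p.2 := wm1_prim.comp Primrec.snd
    refine Primrec.and.comp (hF.comp (hz1.pair (h0.pair hz2))) (Primrec.and.comp
      (hF.comp (hz1.pair (h1.pair hz2))) (Primrec.and.comp
      (hG.comp (hz2.pair (h0.pair (hn.pair hm0)))) (Primrec.and.comp
      (hG.comp (hz2.pair (h1.pair (hn.pair hm1)))) (Primrec.not.comp (Primrec.beq.comp hm0 hm1)))))
  · intro z t
    simp [hF', hG']

theorem split_iff {Q : ℕ → ℕ → Bool} (hQ : ∀ z t, Q z t = true ↔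
      Free (dL (Nat.unpair z).1) (wt0 t) (Nat.unpair z).2 ∧
      Free (dL (Nat.unpair z).1) (wt1 t) (Nat.unpair z).2 ∧
      V (ofNat Code (Nat.unpair z).2) (wt0 t) (wn t) (wm0 t) ∧
      V (ofNat Code (Nat.unpair z).2) (wt1 t) (wn t) (wm1 t) ∧ wm0 t ≠ wm1 t)
    (σ : List Bool) (e : ℕ) :
    (∃ t, Q (Nat.pair (encode σ) e) t = true) ↔ Split σ e := by
  constructor
  · rintro ⟨t, ht⟩
    have := (hQ _ _).1 ht
    simp only [Nat.unpair_pair, dL_encode] at this
    exact ⟨wn t, wm0 t, wm1 t, wt0 t, wt1 t, this⟩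
  · rintro ⟨n, m₀, m₁, τ₀, τ₁, h⟩
    refine ⟨Nat.pair n (Nat.pair m₀ (Nat.pair m₁ (Nat.pair (encode τ₀) (encode τ₁)))), ?_⟩
    rw [hQ]
    simpa only [Nat.unpair_pair, dL_encode, wn, wm0, wm1, wt0, wt1] using h

/-- adding a request, the code of the prefix of the oracle being given. -/
def addr (σ : List Bool) (p r : ℕ) : List Bool :=
  σ ++ (List.range (Nat.pair (tk p + ti p + 3) (Nat.pair r σ.length) - σ.length)).map
    (fun _ => false) ++ [true]

theorem addr_eq (O : ℕ → Bool) (σ : List Bool) (p : ℕ) :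
    addr σ p (encode (pre O (tn p))) = addreq O σ p := by
  unfold addr addreq req
  congr 2
  apply List.ext_getElem <;> simp

/-- The computable part of a step. -/
def stepC (G : List Bool → List ℕ → ℕ → Bool) (x : State) (s b w an r : ℕ) : State :=
  let e := (Nat.unpair s).1
  let act : Bool := (!(x.2.1.contains e)) && !(b == 0)
  let σ' := bif act then (bif wm0 w == an then wt1 w else wt0 w) else x.1
  let a' := bif act then e :: x.2.1 else x.2.1
  let g := G σ' x.2.2 e
  let σ'' := bif g then addr σ' e r else σ'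
  let p' := bif g then e :: x.2.2 else x.2.2
  (σ'' ++ [false], a', p')


theorem addr_prim : Primrec fun q : List Bool × ℕ × ℕ => addr q.1 q.2.1 q.2.2 := by
  unfold addr tk ti
  have hσ : Primrec fun q : List Bool × ℕ × ℕ => q.1 := Primrec.fst
  have hp : Primrec fun q : List Bool × ℕ × ℕ => q.2.1 := Primrec.fst.comp Primrec.snd
  have hr : Primrec fun q : List Bool × ℕ × ℕ => q.2.2 := Primrec.snd.comp Primrec.snd
  have hlen : Primrec fun q : List Bool × ℕ × ℕ => q.1.length := Primrec.list_length.comp hσ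
  have hreq : Primrec fun q : List Bool × ℕ × ℕ =>
      Nat.pair ((Nat.unpair (Nat.unpair q.2.1).2).2 + (Nat.unpair q.2.1).1 + 3)
        (Nat.pair q.2.2 q.1.length) :=
    Primrec₂.natPair.comp (Primrec.nat_add.comp (Primrec.nat_add.comp (u2 (u2 hp)) (u1 hp))
      (Primrec.const 3)) (Primrec₂.natPair.comp hr hlen)
  exact Primrec.list_append.comp (Primrec.list_append.comp hσ (Primrec.list_map
    (Primrec.list_range.comp (Primrec.nat_sub.comp hreq hlen)) (Primrec₂.const false)))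
    (Primrec.const [true])

theorem contains_prim : Primrec₂ fun (l : List ℕ) (e : ℕ) => l.contains e := by
  have h := PrimrecRel.exists_mem_list (R := fun (a : ℕ) (b : ℕ) => a = b) (Primrec.eq)
  have h2 : PrimrecRel fun (l : List ℕ) (e : ℕ) => e ∈ l := by
    refine h.of_eq ?_
    intro l e
    simp
  have := h2.decide
  refine this.of_eq ?_
  intro l e
  simp

theorem stepC_prim {G : List Bool → List ℕ → ℕ → Bool}
    (hG : Primrec fun p : List Bool × List ℕ × ℕ => G p.1 p.2.1 p.2.2) :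
    Primrec fun q : State × ℕ × ℕ × ℕ × ℕ × ℕ =>
      stepC G q.1 q.2.1 q.2.2.1 q.2.2.2.1 q.2.2.2.2.1 q.2.2.2.2.2 := by
  have hx : Primrec fun q : State × ℕ × ℕ × ℕ × ℕ × ℕ => q.1 := Primrec.fst
  have hx1 : Primrec fun q : State × ℕ × ℕ × ℕ × ℕ × ℕ => q.1.1 := Primrec.fst.comp Primrec.fst
  have hx2 : Primrec fun q : State × ℕ × ℕ × ℕ × ℕ × ℕ => q.1.2.1 :=
    Primrec.fst.comp (Primrec.snd.comp Primrec.fst)
  have hx3 : Primrec fun q : State × ℕ × ℕ × ℕ × ℕ × ℕ => q.1.2.2 :=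
    Primrec.snd.comp (Primrec.snd.comp Primrec.fst)
  have hs : Primrec fun q : State × ℕ × ℕ × ℕ × ℕ × ℕ => q.2.1 := Primrec.fst.comp Primrec.snd
  have hb : Primrec fun q : State × ℕ × ℕ × ℕ × ℕ × ℕ => q.2.2.1 :=
    Primrec.fst.comp (Primrec.snd.comp Primrec.snd)
  have hw : Primrec fun q : State × ℕ × ℕ × ℕ × ℕ × ℕ => q.2.2.2.1 :=
    Primrec.fst.comp (Primrec.snd.comp (Primrec.snd.comp Primrec.snd))
  have han : Primrec fun q : State × ℕ × ℕ × ℕ × ℕ × ℕ => q.2.2.2.2.1 :=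
    Primrec.fst.comp (Primrec.snd.comp (Primrec.snd.comp (Primrec.snd.comp Primrec.snd)))
  have hr : Primrec fun q : State × ℕ × ℕ × ℕ × ℕ × ℕ => q.2.2.2.2.2 :=
    Primrec.snd.comp (Primrec.snd.comp (Primrec.snd.comp (Primrec.snd.comp Primrec.snd)))
  have he : Primrec fun q : State × ℕ × ℕ × ℕ × ℕ × ℕ => (Nat.unpair q.2.1).1 := u1 hs
  have hact : Primrec fun q : State × ℕ × ℕ × ℕ × ℕ × ℕ =>
      ((!(q.1.2.1.contains (Nat.unpair q.2.1).1)) && !(q.2.2.1 == 0)) :=
    Primrec.and.comp (Primrec.not.comp (contains_prim.comp hx2 he))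
      (Primrec.not.comp (Primrec.beq.comp hb (Primrec.const 0)))
  have hσ : Primrec fun q : State × ℕ × ℕ × ℕ × ℕ × ℕ =>
      (bif ((!(q.1.2.1.contains (Nat.unpair q.2.1).1)) && !(q.2.2.1 == 0)) then
        (bif wm0 q.2.2.2.1 == q.2.2.2.2.1 then wt1 q.2.2.2.1 else wt0 q.2.2.2.1) else q.1.1) :=
    Primrec.cond hact (Primrec.cond (Primrec.beq.comp (wm0_prim.comp hw) han)
      (wt1_prim.comp hw) (wt0_prim.comp hw)) hx1
  have ha : Primrec fun q : State × ℕ × ℕ × ℕ × ℕ × ℕ =>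
      (bif ((!(q.1.2.1.contains (Nat.unpair q.2.1).1)) && !(q.2.2.1 == 0)) then
        (Nat.unpair q.2.1).1 :: q.1.2.1 else q.1.2.1) :=
    Primrec.cond hact (Primrec.list_cons.comp he hx2) hx2
  have hg := hG.comp (hσ.pair (hx3.pair he))
  exact (Primrec.list_concat.comp (Primrec.cond hg (addr_prim.comp (hσ.pair (he.pair hr))) hσ)
    (Primrec.const false)).pair (ha.pair (Primrec.cond hg (Primrec.list_cons.comp he hx3) hx3))


theorem step_ok (A O : ℕ → Bool) {G : List Bool → List ℕ → ℕ → Bool}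
    (hG : ∀ σ l p, G σ l p = true ↔ Good σ l p) (x : State) (s b w : ℕ)
    (hb : b = 0 ↔ ¬ Split x.1 (Nat.unpair s).1)
    (hw : Split x.1 (Nat.unpair s).1 →
      Free x.1 (wt0 w) (Nat.unpair s).1 ∧
      Free x.1 (wt1 w) (Nat.unpair s).1 ∧
      V (ofNat Code (Nat.unpair s).1) (wt0 w) (wn w) (wm0 w) ∧
      V (ofNat Code (Nat.unpair s).1) (wt1 w) (wn w) (wm1 w) ∧ wm0 w ≠ wm1 w) :
    Step A O s x (stepC G x s b w (Bool.toNat (A (wn w)))
      (encode (pre O (tn (Nat.unpair s).1)))) := by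
  unfold stepC Step
  simp only [addr_eq]
  generalize (Nat.unpair s).1 = e at hb hw ⊢
  refine ⟨(bif !x.2.1.contains e && !b == 0 then
    bif wm0 w == (A (wn w)).toNat then wt1 w else wt0 w else x.1), _, _, _, ?_, ?_, rfl⟩
  · by_cases hmem : e ∈ x.2.1
    · right
      simp [hmem]
    · by_cases hs : Split x.1 e
      · left
        have hb' : (b == 0) = false := by
          rw [beq_eq_false_iff_ne]
          exact fun h => (hb.1 h) hs
        obtain ⟨f0, f1, v0, v1, hne⟩ := hw hs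
        refine ⟨hmem, ?_, ?_⟩
        · by_cases hm : wm0 w = Bool.toNat (A (wn w))
          · refine ⟨wn w, wm1 w, ?_, ?_, ?_⟩
            · rw [← hm]; exact hne.symm
            · simpa [hmem, hb', hm] using f1
            · simpa [hmem, hb', hm] using v1
          · have hm' : (wm0 w == (A (wn w)).toNat) = false := by
              rw [beq_eq_false_iff_ne]; exact hm
            refine ⟨wn w, wm0 w, hm, ?_, ?_⟩
            · simpa [hmem, hb', hm'] using f0
            · simpa [hmem, hb', hm'] using v0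
        · simp [hmem, hb']
      · right
        have hb' : b = 0 := hb.2 hs
        simp [hb', hs]
  · generalize (bif !List.contains x.2.1 e && !b == 0 then bif wm0 w == Bool.toNat (A (wn w)) then wt1 w else wt0 w
        else x.1) = σ'
    by_cases hg : Good σ' x.2.2 e
    · left
      have := (hG _ _ _).2 hg
      simp [this, hg]
    · right
      have : G σ' x.2.2 e = false := by
        rw [Bool.eq_false_iff]
        exact fun h => hg ((hG _ _ _).1 h)
      simp [this, hg]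

/-- The oracle information about splittings. -/
theorem exists_W : ∃ (bq W : ℕ → ℕ), Tot halt bq ∧ Tot halt W ∧
    (∀ σ e, bq (Nat.pair (encode σ) e) = 0 ↔ ¬ Split σ e) ∧
    (∀ (σ : List Bool) (e : ℕ), Split σ e →
      Free σ (wt0 (W (Nat.pair (encode σ) e))) e ∧
      Free σ (wt1 (W (Nat.pair (encode σ) e))) e ∧
      V (ofNat Code e) (wt0 (W (Nat.pair (encode σ) e))) (wn (W (Nat.pair (encode σ) e)))
        (wm0 (W (Nat.pair (encode σ) e))) ∧
      V (ofNat Code e) (wt1 (W (Nat.pair (encode σ) e))) (wn (W (Nat.pair (encode σ) e)))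
        (wm1 (W (Nat.pair (encode σ) e))) ∧
      wm0 (W (Nat.pair (encode σ) e)) ≠ wm1 (W (Nat.pair (encode σ) e))) := by
  obtain ⟨Q, hQp, hQ⟩ := exists_Q
  obtain ⟨g1, hg1, hg1'⟩ := sigma1 Q hQp.to_comp
  obtain ⟨Q2, hQ2, hQ2'⟩ : ∃ Q2 : ℕ → ℕ → Bool, Primrec₂ Q2 ∧
      ∀ z b t, Q2 (Nat.pair z b) t = ((b == 0) || Q z t) := by
    refine ⟨fun z' t => ((Nat.unpair z').2 == 0) || Q (Nat.unpair z').1 t,
      Primrec.or.comp (Primrec.beq.comp (u2 Primrec.fst) (Primrec.const 0))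
      (hQp.comp (u1 Primrec.fst) Primrec.snd), ?_⟩
    intro z b t
    simp only [Nat.unpair_pair]
  have hbq : Tot halt (fun z => Bool.toNat (halt (g1 z))) :=
    (Tot.oracle halt).comp (Tot.of_computable hg1)
  have hbq' : ∀ z, Bool.toNat (halt (g1 z)) = 0 ↔ ¬ ∃ t, Q z t = true := by
    intro z
    rw [← hg1' z]
    cases halt (g1 z) <;> simp
  generalize hbqdef : (fun z => Bool.toNat (halt (g1 z))) = bq at hbq
  have hbq'' : ∀ z, bq z = 0 ↔ ¬ ∃ t, Q z t = true := by
    intro z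
    rw [← hbq' z, ← hbqdef]
  have hex : ∀ z, ∃ t, Q2 (Nat.pair z (bq z)) t = true := by
    intro z
    by_cases h : bq z = 0
    · exact ⟨0, by rw [hQ2', h]; rfl⟩
    · rw [hbq'' z, not_not] at h
      obtain ⟨t, ht⟩ := h
      exact ⟨t, by rw [hQ2', ht, Bool.or_true]⟩
  have hW : Tot halt (fun z => sInf {t | Q2 (Nat.pair z (bq z)) t = true}) :=
    Tot.search Q2 hQ2.to_comp (Tot.pair (Tot.of_computable Computable.id) hbq) hex
  have hW' : ∀ z, (∃ t, Q z t = true) →
      Q z (sInf {t | Q2 (Nat.pair z (bq z)) t = true}) = true := by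
    intro z hz
    have h1 : Q2 (Nat.pair z (bq z)) (sInf {t | Q2 (Nat.pair z (bq z)) t = true}) = true :=
      Nat.sInf_mem (hex z)
    have h2 : bq z ≠ 0 := fun h => (hbq'' z).1 h hz
    rw [hQ2', beq_eq_false_iff_ne.2 h2, Bool.false_or] at h1
    exact h1
  refine ⟨bq, fun z => sInf {t | Q2 (Nat.pair z (bq z)) t = true}, hbq, hW, ?_, ?_⟩
  · intro σ e
    rw [hbq'', split_iff hQ]
  · intro σ e h
    have := hW' _ ((split_iff hQ σ e).2 h)
    rw [hQ] at this
    simpa only [Nat.unpair_pair, dL_encode] using this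

/-- decoding of the arguments of `stepC`. -/
theorem exists_tup : ∃ T : ℕ → State × ℕ × ℕ × ℕ × ℕ × ℕ, Primrec T ∧ ∀ y s b w an r,
    T (Nat.pair y (Nat.pair s (Nat.pair b (Nat.pair w (Nat.pair an r))))) =
      (dS y, s, b, w, an, r) := by
  refine ⟨fun v => ((dS (Nat.unpair v).1, (Nat.unpair (Nat.unpair v).2).1,
        (Nat.unpair (Nat.unpair (Nat.unpair v).2).2).1,
        (Nat.unpair (Nat.unpair (Nat.unpair (Nat.unpair v).2).2).2).1,
        (Nat.unpair (Nat.unpair (Nat.unpair (Nat.unpair (Nat.unpair v).2).2).2).2).1,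
        (Nat.unpair (Nat.unpair (Nat.unpair (Nat.unpair (Nat.unpair v).2).2).2).2).2)), ?_, ?_⟩
  · have h1 : Primrec fun v : ℕ => (Nat.unpair v).2 := u2 Primrec.id
    have h2 : Primrec fun v : ℕ => (Nat.unpair (Nat.unpair v).2).2 := u2 h1
    have h3 : Primrec fun v : ℕ => (Nat.unpair (Nat.unpair (Nat.unpair v).2).2).2 := u2 h2
    have h4 : Primrec fun v : ℕ =>
      (Nat.unpair (Nat.unpair (Nat.unpair (Nat.unpair v).2).2).2).2 := u2 h3
    exact (dS_prim.comp (u1 Primrec.id)).pair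
      ((u1 h1).pair ((u1 h2).pair ((u1 h3).pair ((u1 h4).pair (u2 h4)))))
  · intro y s b w an r
    simp only [Nat.unpair_pair]

/-- The computable assembly function. -/
theorem exists_H {G : List Bool → List ℕ → ℕ → Bool}
    (hGp : Primrec fun p : List Bool × List ℕ × ℕ => G p.1 p.2.1 p.2.2) :
    ∃ H : ℕ → ℕ, Primrec H ∧ ∀ y s b w an r,
      H (Nat.pair y (Nat.pair s (Nat.pair b (Nat.pair w (Nat.pair an r))))) =
        encS (stepC G (dS y) s b w an r) := by
  obtain ⟨T, hT, hT'⟩ := exists_tup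
  have h := stepC_prim hGp
  generalize hF : (fun q : State × ℕ × ℕ × ℕ × ℕ × ℕ =>
      stepC G q.1 q.2.1 q.2.2.1 q.2.2.2.1 q.2.2.2.2.1 q.2.2.2.2.2) = F at h
  refine ⟨fun v => encS (F (T v)), encS_prim.comp (h.comp hT), ?_⟩
  intro y s b w an r
  simp only [hT', ← hF]

theorem exists_run (A : ℕ → Bool) (hA : ∃ g : ℕ → ℕ, Computable g ∧ ∀ n, A n = halt (g n)) :
    ∃ st : ℕ → State, Run A halt st ∧
      Nat.RecursiveIn {chi halt} (fun n => Part.some (encode (st n))) := by
  obtain ⟨g, hg, hgA⟩ := hA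
  obtain ⟨G, hGp, hG⟩ := goodDec
  obtain ⟨bq, W, hbq, hW, hbq', hW'⟩ := exists_W
  obtain ⟨H, hH, hH'⟩ := exists_H hGp
  have hA : Tot halt (fun n => Bool.toNat (A n)) := by
    have h := (Tot.oracle halt).comp (Tot.of_computable hg)
    simpa only [← hgA] using h
  obtain ⟨zz, hzz, hzz'⟩ : ∃ zz : ℕ → ℕ, Tot halt zz ∧
      ∀ s y, zz (Nat.pair s y) = Nat.pair (encode (dS y).1) (Nat.unpair s).1 := by
    refine ⟨fun p => Nat.pair (encode (dS (Nat.unpair p).2).1)
      (Nat.unpair (Nat.unpair p).1).1, Tot.of_computable (Primrec.to_comp ?_), ?_⟩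
    · exact Primrec₂.natPair.comp (Primrec.encode.comp (Primrec.fst.comp (dS_prim.comp
        (u2 Primrec.id)))) (u1 (u1 Primrec.id))
    · intro s y
      simp only [Nat.unpair_pair]
  have hfst : Tot halt (fun p => (Nat.unpair p).1) :=
    Tot.of_computable (u1 Primrec.id).to_comp
  have hsnd : Tot halt (fun p => (Nat.unpair p).2) :=
    Tot.of_computable (u2 Primrec.id).to_comp
  have hwn : Tot halt (fun p => Bool.toNat (A (wn (W (zz p))))) :=
    hA.comp ((Tot.of_computable wn_prim.to_comp).comp (hW.comp hzz))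
  have htn : Tot halt (fun p => encode (pre halt (tn (Nat.unpair (Nat.unpair p).1).1))) :=
    (Tot.pre halt).comp (Tot.of_computable
      (u1 (u2 (u1 (u1 Primrec.id)))).to_comp)
  have hnx := (Tot.of_computable (X := halt) hH.to_comp).comp
      (hsnd.pair (hfst.pair ((hbq.comp hzz).pair ((hW.comp hzz).pair (hwn.pair htn)))))
  simp only [hH'] at hnx
  obtain ⟨nx, hnx1, hnx2⟩ : ∃ nx : ℕ → ℕ → State,
      Tot halt (fun p => encS (nx (Nat.unpair p).1 (Nat.unpair p).2)) ∧
      ∀ s y, nx s y = stepC G (dS y) s (bq (zz (Nat.pair s y))) (W (zz (Nat.pair s y)))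
        (Bool.toNat (A (wn (W (zz (Nat.pair s y))))))
        (encode (pre halt (tn (Nat.unpair s).1))) := by
    refine ⟨fun s y => stepC G (dS y) s (bq (zz (Nat.pair s y))) (W (zz (Nat.pair s y)))
        (Bool.toNat (A (wn (W (zz (Nat.pair s y))))))
        (encode (pre halt (tn (Nat.unpair s).1))), ?_, fun _ _ => rfl⟩
    simp only [Nat.pair_unpair]
    exact hnx
  have hit := Tot.iterate (f := fun s y => encS (nx s y)) hnx1 (encS ([], [], []))
  obtain ⟨rc, hrc, hrc0, hrcs⟩ : ∃ rc : ℕ → ℕ, Tot halt rc ∧ rc 0 = encS ([], [], []) ∧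
      ∀ s, rc (s + 1) = encS (nx s (rc s)) :=
    ⟨_, hit, rfl, fun _ => rfl⟩
  have henc : ∀ n, encS (dS (rc n)) = rc n := by
    intro n
    cases n with
    | zero => rw [hrc0, dS_encS]
    | succ n => rw [hrcs, dS_encS]
  refine ⟨fun n => dS (rc n), ⟨?_, ?_⟩, ?_⟩
  · show dS (rc 0) = _
    rw [hrc0, dS_encS]
  · intro s
    show Step A halt s (dS (rc s)) (dS (rc (s + 1)))
    rw [hrcs, dS_encS, hnx2, hzz']
    exact step_ok A halt hG (dS (rc s)) s _ _ (hbq' _ _) (hW' _ _)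
  · have : (fun n => Part.some (encode (dS (rc n))) : ℕ →. ℕ) = fun n => Part.some (rc n) := by
      funext n
      have : encode (dS (rc n)) = rc n := henc n
      rw [this]
    rw [this]
    exact hrc

end Pool.Agent.Helper7.AC
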