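import Pool.Agent.Helper7.AC.Run
import Pool.Agent.Helper52.AC.Weight
import Pool.Agent.Helper3.AC.NormalForm
import Pool.Agent.Helper31.AC.ConeAvoid
import Pool.Agent.Helper84.AC.KTriv

set_option autoImplicit false

namespace Pool.Agent.Helper7.AC

open Nat.Partrec (Code)
open Denumerable Encodable

theorem ce_reduces (A : ℕ → Bool)
    (h : ∃ φ : ℕ →. ℕ, Nat.Partrec φ ∧ ∀ n, (φ n).Dom ↔ A n = true) :
    ∃ g : ℕ → ℕ, Computable g ∧ ∀ n, A n = halt (g n) := by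
  obtain ⟨φ, hφ, hA⟩ := h
  obtain ⟨c, hc⟩ := Code.exists_code.1 hφ
  have hQ : Primrec₂ fun (n t : ℕ) => (Code.evaln t c n).isSome := by
    refine Primrec.option_isSome.comp (Code.primrec_evaln.comp
      ((Primrec.snd.pair (Primrec.const c)).pair Primrec.fst))
  obtain ⟨g, hg, hg'⟩ := sigma1 _ hQ.to_comp
  refine ⟨g, hg, fun n => ?_⟩
  have : A n = true ↔ halt (g n) = true := by
    rw [hg', ← hA, ← hc, Part.dom_iff_mem]
    constructor
    · rintro ⟨y, hy⟩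
      obtain ⟨k, hk⟩ := Code.evaln_complete.1 hy
      exact ⟨k, by rw [Option.isSome_iff_exists]; exact ⟨y, hk⟩⟩
    · rintro ⟨k, hk⟩
      rw [Option.isSome_iff_exists] at hk
      obtain ⟨y, hy⟩ := hk
      exact ⟨y, Code.evaln_sound hy⟩
  exact Bool.eq_iff_iff.2 this

theorem lim_rec {st : ℕ → State}
    (hrec : Nat.RecursiveIn {chi halt} (fun n => Part.some (encode (st n)))) :
    Nat.RecursiveIn {chi halt} (chi (fun n => ext (st (n + 1)).1 n)) := by
  have h1 : Tot halt (fun n => encode (st n)) := hrec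
  obtain ⟨H, hH, hH'⟩ : ∃ H : ℕ → ℕ, Primrec H ∧ ∀ y n,
      H (Nat.pair (encode y) n) = Bool.toNat (ext ((y : State).1) n) := by
    refine ⟨fun v => Bool.toNat ((dS (Nat.unpair v).1).1.getD (Nat.unpair v).2 false), ?_, ?_⟩
    · exact (Primrec.dom_bool Bool.toNat).comp ((Primrec.list_getD false).comp
        (Primrec.fst.comp (dS_prim.comp (u1 Primrec.id))) (u2 Primrec.id))
    · intro y n
      simp only [Nat.unpair_pair, dS_encode, ext]
  have h2 := (Tot.of_computable (X := halt) hH.to_comp).comp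
    ((h1.comp (Tot.of_computable Computable.succ)).pair (Tot.of_computable Computable.id))
  simp only [hH', id] at h2
  exact h2

/-- The main theorem, in the form used for the frozen statement. -/
theorem main (A : ℕ → Bool)
    (hA : ∃ φ : ℕ →. ℕ, Nat.Partrec φ ∧ ∀ n, (φ n).Dom ↔ A n = true)
    (hnc : ¬ Computable A) :
    ∃ B : ℕ → Bool,
      Nat.RecursiveIn {chi halt} (chi B) ∧
      ¬ Nat.RecursiveIn {chi B} (chi halt) ∧
      ¬ Nat.RecursiveIn {chi B} (chi A) ∧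
      ∀ f : ℕ → ℕ,
        (∃ φ : ℕ →. ℕ, Nat.RecursiveIn {chi B} φ ∧
          ∀ n k : ℕ, (φ (Nat.pair n k)).Dom ↔ f n ≤ k) →
        (∀ s : Finset ℕ, ∑ n ∈ s, (1/2 : ℝ) ^ (f n) ≤ 1) →
        ∃ h : List Bool → ℕ,
          (∃ ψ : ℕ →. ℕ, Nat.RecursiveIn {chi B} ψ ∧
            ∀ σ : List Bool, ∀ k : ℕ, (ψ (Nat.pair (Encodable.encode σ) k)).Dom ↔ h σ ≤ k) ∧
          (∀ s : Finset (List Bool), ∑ σ ∈ s, (1/2 : ℝ) ^ (h σ) ≤ 1) ∧
          ∃ c : ℕ, ∀ n : ℕ, h (pre halt n) ≤ f n + c := by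
  obtain ⟨g, hg, hgA⟩ := ce_reduces A hA
  obtain ⟨st, hrun, hrec⟩ := exists_run A ⟨g, hg, hgA⟩
  refine ⟨fun n => ext (st (n + 1)).1 n, lim_rec hrec, ?_⟩
  have hL := exists_lim hrun
  have hW := weight_bound hrun hL
  generalize (fun n => ext (st (n + 1)).1 n) = B at hL hW ⊢
  have hAB : ¬ Nat.RecursiveIn {chi B} (chi A) := by
    intro h
    obtain ⟨c, hc⟩ := Pool.Agent.Helper3.AC.nf h
    refine not_code hrun hL hW freeDec vDec hnc c ?_
    intro n m
    rw [← hc]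
    exact Part.mem_some_iff.symm
  refine ⟨?_, hAB, ?_⟩
  · intro h
    apply hAB
    have h1 : Tot B (fun n => Bool.toNat (halt n)) := h
    have h2 := h1.comp (Tot.of_computable hg)
    simp only [← hgA] at h2
    exact h2
  · rintro f ⟨φ, hφ, hφf⟩ hf
    obtain ⟨c, hc⟩ := Pool.Agent.Helper3.AC.nf hφ
    refine ⟨hB B, hB_semi B, hB_sum hW, ?_⟩
    refine ktriv hrun hL f hf c ?_
    intro n k
    rw [← hφf, Part.dom_iff_mem]
    constructor
    · rintro ⟨m, hm⟩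
      obtain ⟨t, ht⟩ := (hc _ _).1 hm
      exact ⟨t, m, ht⟩
    · rintro ⟨t, m, ht⟩
      exact ⟨m, (hc _ _).2 ⟨t, ht⟩⟩

end Pool.Agent.Helper7.AC
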