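import Mathlib

/-! MP_29fd35_lc: definitions for the construction of an almost complete set below the halting
problem avoiding the upper cone of a given c.e. set. -/

set_option autoImplicit false

namespace Pool.Agent.Helper7.AC

open Nat.Partrec (Code)
open Denumerable Encodable

/-- The prefix of length `k` of the infinite binary sequence `X`. -/
def pre (X : ℕ → Bool) (k : ℕ) : List Bool := (List.range k).map X

/-- The characteristic function of `X` as a partial function. -/
def chi (X : ℕ → Bool) : ℕ →. ℕ := fun n => Part.some (Bool.toNat (X n))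

/-- The halting set. -/
noncomputable def halt (n : ℕ) : Bool :=
  @decide (Code.eval (ofNat Code n) n).Dom (Classical.propDecidable _)

/-- A finite string extended by zeros. -/
def ext (τ : List Bool) (x : ℕ) : Bool := τ.getD x false

/-- Total weight of the requests `x ∈ X` with `a ≤ x < b`; the weight of `x = ⟨r, c, j⟩` is
`2^(-r)`. -/
noncomputable def S (X : ℕ → Bool) (a b : ℕ) : ℝ :=
  ∑ x ∈ Finset.Ico a b, if X x = true then (1 / 2 : ℝ) ^ (Nat.unpair x).1 else 0

/-- `τ` is a free extension of `σ` with budget `2^-(e+3)`. -/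
def Free (σ τ : List Bool) (e : ℕ) : Prop :=
  σ <+: τ ∧ S (ext τ) σ.length τ.length < (1 / 2 : ℝ) ^ (e + 3)

/-- The value `m` at argument `n` is given by the c.e. relation with code `c` on the string `τ`
(within `|τ|` steps, using a prefix of `τ`). -/
def V (c : Code) (τ : List Bool) (n m : ℕ) : Prop :=
  ∃ k ≤ τ.length, Code.evaln τ.length c (Nat.pair (encode (τ.take k)) n) = some m

/-- The c.e. relation with code `c` is defined at argument `q` on the string `τ`. -/
def VD (c : Code) (τ : List Bool) (q : ℕ) : Prop := ∃ m, V c τ q m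

/-- There is a splitting for `e` among the free extensions of `σ`. -/
def Split (σ : List Bool) (e : ℕ) : Prop :=
  ∃ (n m₀ m₁ : ℕ) (τ₀ τ₁ : List Bool), Free σ τ₀ e ∧ Free σ τ₁ e ∧
    V (ofNat Code e) τ₀ n m₀ ∧ V (ofNat Code e) τ₁ n m₁ ∧ m₀ ≠ m₁

/-- Components of a triple `p = ⟨i, ⟨n, k⟩⟩`. -/
def ti (p : ℕ) : ℕ := (Nat.unpair p).1
def tq (p : ℕ) : ℕ := (Nat.unpair p).2
def tn (p : ℕ) : ℕ := (Nat.unpair (Nat.unpair p).2).1
def tk (p : ℕ) : ℕ := (Nat.unpair (Nat.unpair p).2).2

/-- The weight already used by the index `i` in the list `l` of processed triples. -/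
noncomputable def budget (l : List ℕ) (i : ℕ) : ℝ :=
  (l.map fun p => if ti p = i then (1 / 2 : ℝ) ^ tk p else 0).sum

/-- The triple `p` has to be processed now. -/
def Good (σ : List Bool) (l : List ℕ) (p : ℕ) : Prop :=
  p ∉ l ∧ VD (ofNat Code (ti p)) σ (tq p) ∧ budget l (ti p) + (1 / 2 : ℝ) ^ tk p ≤ 2

/-- The request for the triple `p`, with padding `j`. -/
def req (O : ℕ → Bool) (p j : ℕ) : ℕ :=
  Nat.pair (tk p + ti p + 3) (Nat.pair (encode (pre O (tn p))) j)

/-- Add the request for the triple `p` to the string `σ`. -/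
def addreq (O : ℕ → Bool) (σ : List Bool) (p : ℕ) : List Bool :=
  σ ++ List.replicate (req O p σ.length - σ.length) false ++ [true]

/-- States of the construction: string, list of requirements that have acted, list of processed
triples. -/
abbrev State : Type := List Bool × List ℕ × List ℕ

/-- First half of a step: the requirement `e` may act, going from `(σ, l)` to `(σ', l')`. -/
def StepA (A : ℕ → Bool) (e : ℕ) (σ : List Bool) (l : List ℕ) (σ' : List Bool) (l' : List ℕ) :
    Prop :=
  (e ∉ l ∧ (∃ n m : ℕ, m ≠ Bool.toNat (A n) ∧ Free σ σ' e ∧ V (ofNat Code e) σ' n m) ∧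
      l' = e :: l) ∨
    ((e ∈ l ∨ ¬ Split σ e) ∧ σ' = σ ∧ l' = l)

/-- Second half of a step: the triple `p` may be processed. -/
def StepB (O : ℕ → Bool) (p : ℕ) (σ : List Bool) (l : List ℕ) (σ' : List Bool) (l' : List ℕ) :
    Prop :=
  (Good σ l p ∧ σ' = addreq O σ p ∧ l' = p :: l) ∨ (¬ Good σ l p ∧ σ' = σ ∧ l' = l)

/-- Step number `s` of the construction. -/
def Step (A O : ℕ → Bool) (s : ℕ) (x y : State) : Prop :=
  ∃ (σ' σ'' : List Bool) (a' p' : List ℕ),
    StepA A (Nat.unpair s).1 x.1 x.2.1 σ' a' ∧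
    StepB O (Nat.unpair s).1 σ' x.2.2 σ'' p' ∧
    y = (σ'' ++ [false], a', p')

/-- A run of the construction. -/
structure Run (A O : ℕ → Bool) (st : ℕ → State) : Prop where
  zero : st 0 = ([], [], [])
  step : ∀ s, Step A O s (st s) (st (s + 1))

/-- `B` is the limit of the run `st`. -/
def Lim (st : ℕ → State) (B : ℕ → Bool) : Prop := ∀ s, pre B (st s).1.length = (st s).1

/-- The measure of complexity read off from `B`. -/
noncomputable def hB (B : ℕ → Bool) (ρ : List Bool) : ℕ :=
  sInf ({r | ∃ j, B (Nat.pair r (Nat.pair (encode ρ) j)) = true} ∪ {encode ρ + 3})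

/-- `Free` is primitive recursive. -/
def FreeDec : Prop :=
  ∃ F : List Bool → List Bool → ℕ → Bool,
    (Primrec fun p : List Bool × List Bool × ℕ => F p.1 p.2.1 p.2.2) ∧
    ∀ σ τ e, F σ τ e = true ↔ Free σ τ e

/-- `V` is primitive recursive. -/
def VDec : Prop :=
  ∃ F : ℕ → List Bool → ℕ → ℕ → Bool,
    (Primrec fun p : ℕ × List Bool × ℕ × ℕ => F p.1 p.2.1 p.2.2.1 p.2.2.2) ∧
    ∀ e τ n m, F e τ n m = true ↔ V (ofNat Code e) τ n m

/-- `Good` is primitive recursive. -/
def GoodDec : Prop :=
  ∃ F : List Bool → List ℕ → ℕ → Bool,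
    (Primrec fun p : List Bool × List ℕ × ℕ => F p.1 p.2.1 p.2.2) ∧
    ∀ σ l p, F σ l p = true ↔ Good σ l p

/-- A total function recursive in the set `X`. -/
def Tot (X : ℕ → Bool) (f : ℕ → ℕ) : Prop := Nat.RecursiveIn {chi X} (fun n => Part.some (f n))

end Pool.Agent.Helper7.AC
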